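import Pool.Agent.H371.GT.G1
import Pool.Agent.H371.GT.G2
import Pool.Agent.H371.GT.G3

set_option autoImplicit false

open Pool.Agent.H371.GT

namespace Pool.Agent.Results.MP_47cbd1_al.HexagonPairs

/-- For `l` a unit and `f` in the free profinite group `F2` on `X, Y` (`X Y Z = 1`) let `φ` be the
endomorphism `X ↦ X ^ l`, `Y ↦ f⁻¹ Y ^ l f`. If `φ Z` is conjugate to `Z ^ l`, then `φ` is an
automorphism. In particular `φ` is an automorphism whenever `(l, f)` satisfies the relations (I)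
and (II) (with `l = 1 + 2 m`). -/
theorem result :
    (∀ (l : Zhatˣ) (f : F2) (φ : F2 →ₜ* F2), IsPhi l f φ →
      (∃ g : F2, φ Z = g⁻¹ * ppow Z l * g) → Function.Bijective φ) ∧
    ∀ (l : Zhatˣ) (m : Zhat) (f : F2) (φ : F2 →ₜ* F2), (l : Zhat) = 1 + 2 * m → RelI f →
      RelII m f → IsPhi l f φ → Function.Bijective φ := by
  have key : ∀ (l : Zhatˣ) (φ : F2 →ₜ* F2), Hex l φ → Function.Bijective φ := by
    intro l φ h
    have hs := surj_of_hex l φ h
    exact ⟨inj_of_surj φ hs, hs⟩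
  refine ⟨?_, ?_⟩
  · intro l f φ hφ hz
    exact key l φ ⟨hφ.1, ⟨f, hφ.2⟩, hz⟩
  · intro l m f φ hlm h1 h2 hφ
    exact key l φ (hex_of_rel hlm h1 h2 hφ)

end Pool.Agent.Results.MP_47cbd1_al.HexagonPairs
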